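import Pool.Agent.W388.TW.D0

/-!
# The Mellin transform of a theta-like series : proof of `W388.StMellin`
-/

set_option autoImplicit false

open Complex Filter Topology Set MeasureTheory

namespace Pool.Agent.W108.TW

/-- the theta-like series -/
noncomputable def Th (b : ℕ → ℂ) (c : ℝ) (t : ℝ) : ℂ := ∑' n : ℕ, b n * (Real.exp (-(c * n) * t) : ℂ)

lemma summable_maj (c : ℝ) (hc : 0 < c) (m : ℝ) :
    Summable (fun n : ℕ => (n : ℝ) ^ m * Real.exp (-(c * n))) := by
  have h0 := Real.summable_pow_mul_exp_neg_nat_mul (⌈m⌉₊) hc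
  have h1 : Summable (fun n : ℕ => (n : ℝ) ^ (⌈m⌉₊) * Real.exp (-c * n) + (if n = 0 then 1 else 0)) := by
    refine h0.add ?_
    exact summable_of_ne_finset_zero (s := {0}) (by intro n hn; simp at hn; simp [hn])
  refine Summable.of_nonneg_of_le (fun n => by positivity) (fun n => ?_) h1
  rcases Nat.eq_zero_or_pos n with rfl | hn
  · simp only [CharP.cast_eq_zero, mul_zero, neg_zero, Real.exp_zero, mul_one, if_true]
    have : (0 : ℝ) ^ m ≤ 1 := by
      rcases eq_or_ne m 0 with rfl | hm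
      · simp
      · simp [Real.zero_rpow hm]
    have h2 : (0:ℝ) ≤ 0 ^ ⌈m⌉₊ := by positivity
    linarith
  · have h1 : (1 : ℝ) ≤ n := by exact_mod_cast hn
    have h2 : (n : ℝ) ^ m ≤ (n : ℝ) ^ (⌈m⌉₊) := by
      rw [← Real.rpow_natCast]
      exact Real.rpow_le_rpow_of_exponent_le h1 (Nat.le_ceil m)
    have h3 : ((if n = 0 then 1 else 0 : ℝ)) = 0 := by simp [hn.ne']
    rw [h3, add_zero, neg_mul]
    exact mul_le_mul_of_nonneg_right h2 (Real.exp_pos _).le

/-- bound for the single terms, `t ≥ δ` -/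
lemma term_bound {b : ℕ → ℂ} {m C : ℝ} (hb0 : b 0 = 0)
    (hb : ∀ n : ℕ, 1 ≤ n → ‖b n‖ ≤ C * (n : ℝ) ^ m) {c : ℝ} (hc : 0 < c) {δ t : ℝ} (ht : δ ≤ t)
    (n : ℕ) : ‖b n * (Real.exp (-(c * n) * t) : ℂ)‖ ≤
      |C| * ((n : ℝ) ^ m * Real.exp (-((c * δ) * n))) := by
  rw [norm_mul, Complex.norm_real, Real.norm_eq_abs, Real.abs_exp]
  rcases Nat.eq_zero_or_pos n with rfl | hn
  · rw [hb0, norm_zero, zero_mul]; positivity
  · have h1 : ‖b n‖ ≤ |C| * (n : ℝ) ^ m :=
      (hb n hn).trans (mul_le_mul_of_nonneg_right (le_abs_self C) (by positivity))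
    have h2 : Real.exp (-(c * n) * t) ≤ Real.exp (-((c * δ) * n)) := by
      apply Real.exp_le_exp.mpr
      have : c * n * δ ≤ c * n * t := mul_le_mul_of_nonneg_left ht (by positivity)
      nlinarith
    calc ‖b n‖ * Real.exp (-(c * n) * t) ≤ (|C| * (n : ℝ) ^ m) * Real.exp (-((c * δ) * n)) :=
          mul_le_mul h1 h2 (Real.exp_pos _).le (by positivity)
      _ = _ := by ring

lemma summable_term {b : ℕ → ℂ} {m C : ℝ} (hb0 : b 0 = 0)
    (hb : ∀ n : ℕ, 1 ≤ n → ‖b n‖ ≤ C * (n : ℝ) ^ m) {c : ℝ} (hc : 0 < c) {t : ℝ} (ht : 0 < t) :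
    Summable (fun n : ℕ => b n * (Real.exp (-(c * n) * t) : ℂ)) :=
  Summable.of_norm_bounded ((summable_maj (c * t) (by positivity) m).mul_left |C|)
    (fun n => term_bound hb0 hb hc le_rfl n)

lemma continuousOn_Th {b : ℕ → ℂ} {m C : ℝ} (hb0 : b 0 = 0)
    (hb : ∀ n : ℕ, 1 ≤ n → ‖b n‖ ≤ C * (n : ℝ) ^ m) {c : ℝ} (hc : 0 < c) :
    ContinuousOn (Th b c) (Ioi 0) := by
  refine continuousOn_of_forall_continuousAt (fun t (ht : 0 < t) => ?_)
  have h1 : ContinuousOn (Th b c) (Ici (t / 2)) := by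
    refine continuousOn_tsum (u := fun n : ℕ => |C| * ((n : ℝ) ^ m * Real.exp (-((c * (t / 2)) * n))))
      (fun n => ?_) ?_ ?_
    · fun_prop
    · exact (summable_maj (c * (t / 2)) (by positivity) m).mul_left |C|
    · intro n x hx
      exact term_bound hb0 hb hc hx n
  exact h1.continuousAt (Ici_mem_nhds (by linarith))

lemma Th_isBigO {b : ℕ → ℂ} {m C : ℝ} (hb0 : b 0 = 0)
    (hb : ∀ n : ℕ, 1 ≤ n → ‖b n‖ ≤ C * (n : ℝ) ^ m) {c : ℝ} (hc : 0 < c) (r : ℝ) :
    (fun t => Th b c t - 0) =O[atTop] (fun t : ℝ => t ^ r) := by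
  refine Asymptotics.IsBigO.trans ?_ (isLittleO_exp_neg_mul_rpow_atTop hc r).isBigO
  set S : ℝ := ∑' n : ℕ, |C| * ((n : ℝ) ^ m * Real.exp (-(c * n))) with hS
  refine Asymptotics.IsBigO.of_bound (S * Real.exp c) ?_
  filter_upwards [eventually_ge_atTop (1 : ℝ)] with t ht
  rw [sub_zero, Real.norm_eq_abs, Real.abs_exp]
  have hsm := ((summable_maj c hc m).mul_left |C|)
  have h1 : ∀ n : ℕ, ‖b n * (Real.exp (-(c * n) * t) : ℂ)‖ ≤
      |C| * ((n : ℝ) ^ m * Real.exp (-(c * n))) * Real.exp (-c * (t - 1)) := by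
    intro n
    rcases Nat.eq_zero_or_pos n with rfl | hn
    · rw [hb0, zero_mul, norm_zero]; positivity
    · rw [norm_mul, Complex.norm_real, Real.norm_eq_abs, Real.abs_exp]
      have h1 : ‖b n‖ ≤ |C| * (n : ℝ) ^ m :=
        (hb n hn).trans (mul_le_mul_of_nonneg_right (le_abs_self C) (by positivity))
      have h2 : Real.exp (-(c * n) * t) ≤ Real.exp (-(c * n)) * Real.exp (-c * (t - 1)) := by
        rw [← Real.exp_add]
        apply Real.exp_le_exp.mpr
        have h3 : (1 : ℝ) ≤ n := by exact_mod_cast hn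
        have h4 : c * (t - 1) * 1 ≤ c * (t - 1) * n :=
          mul_le_mul_of_nonneg_left h3 (mul_nonneg hc.le (by linarith))
        nlinarith
      calc ‖b n‖ * Real.exp (-(c * n) * t) ≤
          (|C| * (n : ℝ) ^ m) * (Real.exp (-(c * n)) * Real.exp (-c * (t - 1))) :=
          mul_le_mul h1 h2 (Real.exp_pos _).le (by positivity)
        _ = _ := by ring
  have h2 : ‖Th b c t‖ ≤ S * Real.exp (-c * (t - 1)) := by
    rw [hS, ← tsum_mul_right]
    exact tsum_of_norm_bounded (hsm.mul_right _).hasSum h1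
  refine h2.trans (le_of_eq ?_)
  rw [mul_assoc, ← Real.exp_add]
  congr 2
  ring

/-- conjugation and Mellin transforms -/
lemma mellin_conj (f : ℝ → ℂ) (s : ℂ) :
    mellin (fun t => (starRingEnd ℂ) (f t)) ((starRingEnd ℂ) s) = (starRingEnd ℂ) (mellin f s) := by
  rw [mellin, mellin, ← integral_conj]
  refine setIntegral_congr_fun measurableSet_Ioi (fun t (ht : 0 < t) => ?_)
  simp only [smul_eq_mul, map_mul]
  congr 1
  have h : (t : ℂ).arg ≠ Real.pi := by
    rw [Complex.arg_ofReal_of_nonneg ht.le]; exact Real.pi_pos.ne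
  have h2 := Complex.cpow_conj (t : ℂ) (s - 1) h
  rw [Complex.conj_ofReal, map_sub, map_one] at h2
  exact h2

lemma Th_conj (b : ℕ → ℂ) (c t : ℝ) :
    Th (fun n => (starRingEnd ℂ) (b n)) c t = (starRingEnd ℂ) (Th b c t) := by
  rw [Th, Th, Complex.conj_tsum]
  refine tsum_congr (fun n => ?_)
  rw [map_mul, Complex.conj_ofReal]

theorem t_mellin : W388.StMellin := by
  intro k hk N Q hN hQ b m C hb0 hm hb w hw hfe
  -- notation
  set R : ℝ := Real.sqrt N * Q with hR
  have hRpos : 0 < R := by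
    have : 0 < Real.sqrt N := Real.sqrt_pos.mpr (by linarith)
    have hQ' : 0 < Q := by linarith
    positivity
  set c : ℝ := 2 * Real.pi / R with hc'
  have hc : 0 < c := by have := Real.pi_pos; positivity
  have hkr : (1 : ℝ) ≤ k := by exact_mod_cast hk
  have hb' : ∀ n : ℕ, 1 ≤ n → ‖(starRingEnd ℂ) (b n)‖ ≤ C * (n : ℝ) ^ m := by
    intro n hn; rw [RCLike.norm_conj]; exact hb n hn
  have hb0' : (starRingEnd ℂ) (b 0) = 0 := by rw [hb0, map_zero]
  let P : WeakFEPair ℂ :=
    { f := Th b c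
      g := Th (fun n => (starRingEnd ℂ) (b n)) c
      k := (k : ℝ)
      ε := w
      f₀ := 0
      g₀ := 0
      hf_int := (continuousOn_Th hb0 hb hc).locallyIntegrableOn measurableSet_Ioi
      hg_int := (continuousOn_Th hb0' hb' hc).locallyIntegrableOn measurableSet_Ioi
      hk := by linarith
      hε := by intro h; rw [h, norm_zero] at hw; exact zero_ne_one hw
      h_feq := by
        intro x (hx : 0 < x)
        have h := hfe x hx
        rw [smul_eq_mul, Real.rpow_intCast, Complex.ofReal_zpow]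
        rw [Th, Th]
        have e1 : ∀ n : ℕ, -(c * n) * (1 / x) = -(2 * Real.pi * n / R) / x := by
          intro n; rw [hc']; ring
        have e2 : ∀ n : ℕ, -(c * n) * x = -(2 * Real.pi * n / R) * x := by
          intro n; rw [hc']; ring
        simp only [e1, e2]
        exact h
      hf_top := Th_isBigO hb0 hb hc
      hg_top := Th_isBigO hb0' hb' hc }
  have hP : IsStrongFEPair P := ⟨rfl, rfl⟩
  have hΛf : P.Λ = mellin (Th b c) := hP.Λ_eq
  have hΛg : P.symm.Λ = mellin (Th (fun n => (starRingEnd ℂ) (b n)) c) := hP.symm_Λ_eq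
  -- the archimedean factor
  have hcC : (c : ℂ) ≠ 0 := by exact_mod_cast hc.ne'
  set κ : ℂ := ((k : ℂ) - 1) / 2 with hκ
  have hκr : κ = (((k : ℝ) - 1) / 2 : ℝ) := by rw [hκ]; push_cast; ring
  let F : ℂ → ℂ := fun s => P.Λ (s + κ) * (c : ℂ) ^ (s + κ) * (Complex.Gamma (s + κ))⁻¹
  have hGF : ∀ s : ℂ, s.im ≠ 0 → W388.GG k N Q s * F s = (c : ℂ) ^ κ * P.Λ (s + κ) := by
    intro s hs
    have hG : Complex.Gamma (s + κ) ≠ 0 := by
      apply Complex.Gamma_ne_zero
      intro j h
      apply hs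
      have h2 := congrArg Complex.im h
      rw [hκr] at h2
      simpa using h2
    have h1 : ((Real.sqrt N * Q / (2 * Real.pi) : ℝ) : ℂ) = (c : ℂ)⁻¹ := by
      rw [hc', ← Complex.ofReal_inv, inv_div]
    have harg : (c : ℂ).arg ≠ Real.pi := by
      rw [Complex.arg_ofReal_of_nonneg hc.le]; exact Real.pi_pos.ne
    rw [W388.GG, h1, Complex.inv_cpow _ _ harg]
    have hcs : (c : ℂ) ^ s ≠ 0 := by
      rw [Complex.cpow_def_of_ne_zero hcC]; exact Complex.exp_ne_zero _
    simp only [F]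
    rw [Complex.cpow_add _ _ hcC, ← hκ]
    field_simp
  refine ⟨F, ⟨?_, ⟨w, hw, ?_⟩, ?_⟩, ?_⟩
  · -- differentiable
    have h1 : Differentiable ℂ (fun s : ℂ => P.Λ (s + κ)) :=
      hP.differentiable_Λ.comp (differentiable_id.add_const κ)
    have h2 : Differentiable ℂ (fun s : ℂ => (c : ℂ) ^ (s + κ)) := by
      intro s
      exact (DifferentiableAt.const_cpow (by fun_prop) (Or.inl hcC))
    have h3 : Differentiable ℂ (fun s : ℂ => (Complex.Gamma (s + κ))⁻¹) :=
      Complex.differentiable_one_div_Gamma.comp (differentiable_id.add_const κ)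
    exact (h1.mul h2).mul h3
  · -- functional equation
    intro s hs
    have hs2 : (1 - (starRingEnd ℂ) s).im ≠ 0 := by
      simpa using hs
    rw [hGF s hs, hGF _ hs2]
    have hκc : (starRingEnd ℂ) κ = κ := by rw [hκr, Complex.conj_ofReal]
    have e1 : 1 - (starRingEnd ℂ) s + κ = (P.k : ℂ) - (starRingEnd ℂ) (s + κ) := by
      have : (P.k : ℂ) = (k : ℂ) := by simp [P]
      rw [this, map_add, hκc, hκ]; ring
    rw [e1, P.functional_equation, hΛg]
    have e2 : mellin (Th (fun n => (starRingEnd ℂ) (b n)) c) ((starRingEnd ℂ) (s + κ)) =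
        (starRingEnd ℂ) (mellin (Th b c) (s + κ)) := by
      rw [← mellin_conj]
      congr 1
      funext t
      exact Th_conj b c t
    rw [e2, hΛf]
    have e3 : (starRingEnd ℂ) ((c : ℂ) ^ κ) = (c : ℂ) ^ κ := by
      have : (c : ℂ) ^ κ = ((c ^ (((k : ℝ) - 1) / 2) : ℝ) : ℂ) := by
        rw [hκr, Complex.ofReal_cpow hc.le]
      rw [this, Complex.conj_ofReal]
    have hPε : P.ε = w := rfl
    rw [hPε, smul_eq_mul, map_mul, map_mul, e3, Complex.conj_conj]
    have hww : w * (starRingEnd ℂ) w = 1 := by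
      rw [Complex.mul_conj, Complex.normSq_eq_norm_sq, hw]; simp
    linear_combination (-(c : ℂ) ^ κ * mellin (Th b c) (s + κ)) * hww
  · -- vertical strips
    intro a b'
    have hM := fun s => (hP.hasMellin s).1
    set A : ℝ := a + ((k : ℝ) - 1) / 2 with hA
    set B : ℝ := b' + ((k : ℝ) - 1) / 2 with hB
    have hIA : IntegrableOn (fun t : ℝ => t ^ (A - 1) * ‖Th b c t‖) (Ioi 0) := by
      have := (hM (A : ℂ)).norm
      refine IntegrableOn.congr_fun this (fun t (ht : 0 < t) => ?_) measurableSet_Ioi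
      simp only [smul_eq_mul, norm_mul]
      rw [Complex.norm_cpow_eq_rpow_re_of_pos ht]
      simp [P]
    have hIB : IntegrableOn (fun t : ℝ => t ^ (B - 1) * ‖Th b c t‖) (Ioi 0) := by
      have := (hM (B : ℂ)).norm
      refine IntegrableOn.congr_fun this (fun t (ht : 0 < t) => ?_) measurableSet_Ioi
      simp only [smul_eq_mul, norm_mul]
      rw [Complex.norm_cpow_eq_rpow_re_of_pos ht]
      simp [P]
    refine ⟨‖(c : ℂ) ^ κ‖ * ∫ t in Ioi (0 : ℝ), (t ^ (A - 1) * ‖Th b c t‖ + t ^ (B - 1) * ‖Th b c t‖),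
      fun s hs1 hs2 hs3 => ?_⟩
    have hs0 : s.im ≠ 0 := by
      intro h; rw [h, abs_zero] at hs3; linarith
    rw [hGF s hs0, norm_mul]
    refine mul_le_mul_of_nonneg_left ?_ (norm_nonneg _)
    rw [hΛf, mellin]
    refine (norm_integral_le_integral_norm _).trans ?_
    refine setIntegral_mono_on (hM (s + κ)).norm (hIA.add hIB) measurableSet_Ioi
      (fun t (ht : 0 < t) => ?_)
    rw [norm_smul, Complex.norm_cpow_eq_rpow_re_of_pos ht]
    have hre : (s + κ - 1).re = s.re + ((k : ℝ) - 1) / 2 - 1 := by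
      rw [hκr]; simp
    rw [hre, ← add_mul]
    refine mul_le_mul_of_nonneg_right ?_ (norm_nonneg _)
    rcases le_total t 1 with h1 | h1
    · have : t ^ (s.re + ((k : ℝ) - 1) / 2 - 1) ≤ t ^ (A - 1) :=
        Real.rpow_le_rpow_of_exponent_ge ht h1 (by rw [hA]; linarith)
      have h2 : 0 ≤ t ^ (B - 1) := by positivity
      linarith
    · have : t ^ (s.re + ((k : ℝ) - 1) / 2 - 1) ≤ t ^ (B - 1) :=
        Real.rpow_le_rpow_of_exponent_le h1 (by rw [hB]; linarith)
      have h2 : 0 ≤ t ^ (A - 1) := by positivity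
      linarith
  · -- Dirichlet series
    intro s hs
    set S : ℂ := s + κ with hS
    have hSre : S.re = s.re + ((k : ℝ) - 1) / 2 := by rw [hS, hκr]; simp
    have hSm : m + 2 < S.re := by rw [hSre]; linarith
    have hSpos : 0 < S.re := by linarith
    have hG : Complex.Gamma S ≠ 0 := Complex.Gamma_ne_zero_of_re_pos hSpos
    have h1 := hasSum_mellin (a := b) (p := fun n : ℕ => c * n) (F := Th b c) (s := S)
      (by
        intro n
        rcases Nat.eq_zero_or_pos n with rfl | hn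
        · exact Or.inl hb0
        · right
          have : (0 : ℝ) < n := by exact_mod_cast hn
          positivity) hSpos
      (by
        intro t (ht : 0 < t)
        exact (summable_term hb0 hb hc ht).hasSum)
      (by
        have h2 : Summable (fun n : ℕ => |C| / c ^ S.re * (n : ℝ) ^ (m - S.re)) :=
          (Real.summable_nat_rpow.mpr (by linarith)).mul_left _
        refine Summable.of_nonneg_of_le (fun n => by positivity) (fun n => ?_) h2
        rcases Nat.eq_zero_or_pos n with rfl | hn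
        · rw [hb0, norm_zero, zero_div]; positivity
        · have hn' : (0 : ℝ) < n := by exact_mod_cast hn
          have h3 : ‖b n‖ ≤ |C| * (n : ℝ) ^ m :=
            (hb n hn).trans (mul_le_mul_of_nonneg_right (le_abs_self C) (by positivity))
          rw [Real.mul_rpow hc.le hn'.le, Real.rpow_sub hn', div_mul_div_comm]
          exact div_le_div_of_nonneg_right h3 (by positivity))
    have h2 := h1.tsum_eq
    have h3 : F s = (∑' n : ℕ, Complex.Gamma S * b n / ((c * n : ℝ) : ℂ) ^ S) * (c : ℂ) ^ S *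
        (Complex.Gamma S)⁻¹ := by
      simp only [F]
      rw [← hS, hΛf, ← h2]
    have hcs : (c : ℂ) ^ S ≠ 0 := by
      rw [Complex.cpow_def_of_ne_zero hcC]; exact Complex.exp_ne_zero _
    rw [h3, ← tsum_mul_right, ← tsum_mul_right]
    refine tsum_congr (fun n => ?_)
    rcases Nat.eq_zero_or_pos n with rfl | hn
    · rw [hb0]; simp
    · have hn' : (n : ℂ) ≠ 0 := by exact_mod_cast hn.ne'
      have hnS : (n : ℂ) ^ S ≠ 0 := by
        rw [Complex.cpow_def_of_ne_zero hn']; exact Complex.exp_ne_zero _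
      rw [Complex.ofReal_mul, Complex.mul_cpow_ofReal_nonneg hc.le (Nat.cast_nonneg n),
        Complex.cpow_neg]
      simp only [Complex.ofReal_natCast]
      field_simp

end Pool.Agent.W108.TW
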